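import Pool.Agent.W282.LF.Stm

/-!
Approximation of an endomorphism of `y² = x³ + A x + B` near the origin (helper file for project
LF).
-/

namespace Pool.Agent.W346.LF

open WeierstrassCurve WeierstrassCurve.Affine Pool.Agent.W466.EP Pool.Agent.W282.LF

section est

variable {L : Type*} [Field L] {Γ₀ : Type*} [LinearOrderedCommGroupWithZero Γ₀]
  {v : Valuation L Γ₀}

/-- a polynomial at a large argument is close to its leading term -/
theorem poly_est {π : Γ₀} (hπ0 : 0 < π) (hπ1 : π < 1) {M : ℕ} (P : Polynomial L) (hP : P ≠ 0)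
    (hc : ∀ i, P.coeff i ≠ 0 → π ^ M ≤ v (P.coeff i) ∧ v (P.coeff i) * π ^ M ≤ 1)
    (x : L) (hx : 1 < v x * π ^ (2 * M)) :
    ∃ e : L, P.eval x = P.leadingCoeff * x ^ P.natDegree * (1 + e) ∧
      v e * (v x * π ^ (2 * M)) ≤ 1 := by
  have hπM : π ^ (2 * M) ≤ 1 := pow_le_one₀ hπ0.le hπ1.le
  have hx1 : 1 < v x := by
    calc 1 < v x * π ^ (2 * M) := hx
      _ ≤ v x * 1 := by gcongr
      _ = v x := mul_one _
  have hx0 : x ≠ 0 := by
    rintro rfl
    rw [map_zero] at hx1
    exact absurd hx1 (not_lt.2 zero_le_one)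
  have hl0 : P.leadingCoeff ≠ 0 := Polynomial.leadingCoeff_ne_zero.2 hP
  have hcx : P.leadingCoeff * x ^ P.natDegree ≠ 0 := mul_ne_zero hl0 (pow_ne_zero _ hx0)
  have hl1 : π ^ M ≤ v P.leadingCoeff := (hc P.natDegree hl0).1
  have hev : P.eval x = ∑ i ∈ Finset.range P.natDegree, P.coeff i * x ^ i +
      P.leadingCoeff * x ^ P.natDegree := by
    rw [Polynomial.eval_eq_sum_range, Finset.sum_range_succ, Polynomial.coeff_natDegree]
  refine ⟨(∑ i ∈ Finset.range P.natDegree, P.coeff i * x ^ i) /
    (P.leadingCoeff * x ^ P.natDegree), ?_, ?_⟩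
  · rw [mul_add, mul_div_cancel₀ _ hcx, hev]
    ring
  · have hw : 0 < v x * π ^ (2 * M) := zero_lt_one.trans hx
    have hd : 0 < v (P.leadingCoeff * x ^ P.natDegree) :=
      zero_lt_iff.2 ((map_ne_zero v).2 hcx)
    have hs : v (∑ i ∈ Finset.range P.natDegree, P.coeff i * x ^ i) ≤
        v (P.leadingCoeff * x ^ P.natDegree) / (v x * π ^ (2 * M)) := by
      refine v.map_sum_le fun i hi => ?_
      rw [Finset.mem_range] at hi
      rw [le_div_iff₀ hw]
      by_cases hi0 : P.coeff i = 0
      · rw [hi0, zero_mul, map_zero, zero_mul]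
        exact zero_le
      · rw [map_mul, map_pow, map_mul, map_pow]
        calc v (P.coeff i) * v x ^ i * (v x * π ^ (2 * M))
            = (v (P.coeff i) * π ^ M) * v x ^ (i + 1) * π ^ M := by
              rw [two_mul, pow_add, pow_succ]
              ac_rfl
          _ ≤ 1 * v x ^ P.natDegree * v P.leadingCoeff := by
              gcongr
              · exact (hc i hi0).2
              · exact hx1.le
              · exact hi
          _ = v P.leadingCoeff * v x ^ P.natDegree := by
              rw [one_mul, mul_comm]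
    rw [map_div₀]
    rw [le_div_iff₀ hw] at hs
    rw [div_mul_eq_mul_div, div_le_iff₀ hd, one_mul]
    exact hs

theorem v_one_add {e : L} (he : v e < 1) : v (1 + e) = 1 := by
  rw [Valuation.map_add_eq_of_lt_left, map_one]
  rwa [map_one]

end est

theorem endo : S_ENDO := by
  intro L _ _ Γ₀ _ v π hπ0 hπ1 h2 A B hA hB φ F G H K hr hM
  obtain ⟨M, hM⟩ := hM
  refine ⟨6 * M + 1, ?_⟩
  intro Q hQ hQt
  match Q, hQ, hQt with
  | .zero, _, _ =>
    have h0 : φ (.zero : (crv A B).Point) = .zero := φ.map_zero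
    rw [h0]
    refine ⟨trivial, ?_⟩
    have ht : tt (.zero : (crv A B).Point) = 0 := rfl
    rw [ht, mul_zero, sub_zero, map_zero, zero_mul]
    exact zero_le
  | .some x y h, hQ, hQt =>
    have hx1 : 1 < v x := hQ
    have hQt' : v (x / y) ≤ π ^ (6 * M + 1) := hQt
    obtain ⟨hy0, hx0, ht1, ht2, -, -⟩ := loc hA hB (eqn h) hx1
    have hvx : 0 < v x := zero_lt_one.trans hx1
    have hxy0 : x / y ≠ 0 := div_ne_zero hx0 hy0
    have hvt : 0 < v (x / y) := zero_lt_iff.2 ((map_ne_zero v).2 hxy0)
    -- `x` is large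
    have hbig : 1 < v x * π ^ (2 * M) := by
      have h3 : v (x / y) ^ 2 < π ^ (2 * M) := by
        calc v (x / y) ^ 2 ≤ (π ^ (6 * M + 1)) ^ 2 := by gcongr
          _ = π ^ ((6 * M + 1) * 2) := by rw [pow_mul]
          _ < π ^ (2 * M) := pow_lt_pow_right_of_lt_one₀ hπ0 hπ1 (by omega)
      calc 1 = v (x / y) ^ 2 * v x := ht2.symm
        _ < π ^ (2 * M) * v x := by gcongr
        _ = v x * π ^ (2 * M) := mul_comm _ _
    have hF0 : F ≠ 0 := by
      rintro rfl
      have := hr.degF
      rw [Polynomial.natDegree_zero] at this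
      omega
    obtain ⟨eF, hF, heF⟩ := poly_est hπ0 hπ1 F hF0 (hM F (by simp)) x hbig
    obtain ⟨eG, hG, heG⟩ := poly_est hπ0 hπ1 G hr.G0 (hM G (by simp)) x hbig
    obtain ⟨eH, hH, heH⟩ := poly_est hπ0 hπ1 H hr.H0 (hM H (by simp)) x hbig
    obtain ⟨eK, hK, heK⟩ := poly_est hπ0 hπ1 K hr.K0 (hM K (by simp)) x hbig
    have hw : 0 < v x * π ^ (2 * M) := zero_lt_one.trans hbig
    have hlt : ∀ e : L, v e * (v x * π ^ (2 * M)) ≤ 1 → v e < 1 := by
      intro e he
      by_contra hcon
      push Not at hcon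
      have : 1 < v e * (v x * π ^ (2 * M)) := by
        calc 1 < v x * π ^ (2 * M) := hbig
          _ = 1 * (v x * π ^ (2 * M)) := (one_mul _).symm
          _ ≤ v e * (v x * π ^ (2 * M)) := by gcongr
      exact absurd he (not_le.2 this)
    have vF : v (1 + eF) = 1 := v_one_add (hlt _ heF)
    have vG : v (1 + eG) = 1 := v_one_add (hlt _ heG)
    have vH : v (1 + eH) = 1 := v_one_add (hlt _ heH)
    have vK : v (1 + eK) = 1 := v_one_add (hlt _ heK)
    have nz : ∀ e : L, v (1 + e) = 1 → 1 + e ≠ 0 := by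
      intro e he h0
      rw [h0, map_zero] at he
      exact zero_ne_one he
    have nF := nz _ vF
    have nG := nz _ vG
    have nH := nz _ vH
    have nK := nz _ vK
    have lF : F.leadingCoeff ≠ 0 := Polynomial.leadingCoeff_ne_zero.2 hF0
    have lG : G.leadingCoeff ≠ 0 := Polynomial.leadingCoeff_ne_zero.2 hr.G0
    have lH : H.leadingCoeff ≠ 0 := Polynomial.leadingCoeff_ne_zero.2 hr.H0
    have lK : K.leadingCoeff ≠ 0 := Polynomial.leadingCoeff_ne_zero.2 hr.K0
    have hG0 : G.eval x ≠ 0 := by
      rw [hG]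
      exact mul_ne_zero (mul_ne_zero lG (pow_ne_zero _ hx0)) nG
    have hK0 : K.eval x ≠ 0 := by
      rw [hK]
      exact mul_ne_zero (mul_ne_zero lK (pow_ne_zero _ hx0)) nK
    obtain ⟨h', hφ⟩ := hr.val x y h hG0 hK0
    rw [hφ]
    have bF := hM F (by simp) F.natDegree lF
    have bG := hM G (by simp) G.natDegree lG
    have bH := hM H (by simp) H.natDegree lH
    have bK := hM K (by simp) K.natDegree lK
    rw [Polynomial.coeff_natDegree] at bF bG bH bK
    have pG : 0 < v G.leadingCoeff := zero_lt_iff.2 ((map_ne_zero v).2 lG)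
    have pH : 0 < v H.leadingCoeff := zero_lt_iff.2 ((map_ne_zero v).2 lH)
    -- value of the first coordinate
    have hFG : F.eval x / G.eval x =
        F.leadingCoeff / G.leadingCoeff * x * ((1 + eF) / (1 + eG)) := by
      rw [hF, hG, hr.degF, pow_succ]
      have := pow_ne_zero G.natDegree hx0
      field_simp
    have hHK : H.eval x / K.eval x =
        H.leadingCoeff / K.leadingCoeff * ((1 + eH) / (1 + eK)) := by
      rw [hH, hK, hr.degH]
      have := pow_ne_zero K.natDegree hx0
      field_simp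
    constructor
    · show 1 < v (F.eval x / G.eval x)
      rw [hFG, map_mul, map_mul, map_div₀, map_div₀, vF, vG, div_one, mul_one,
        div_mul_eq_mul_div, lt_div_iff₀ pG, one_mul]
      have h5 : v G.leadingCoeff * π ^ M * π ^ M < v F.leadingCoeff * v x * π ^ M * π ^ M := by
        calc v G.leadingCoeff * π ^ M * π ^ M ≤ 1 * π ^ M := by
              gcongr
              exact bG.2
          _ ≤ 1 * v F.leadingCoeff := by
              gcongr
              exact bF.1
          _ = v F.leadingCoeff * 1 := mul_comm _ _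
          _ < v F.leadingCoeff * (v x * π ^ (2 * M)) := by
              gcongr
              exact zero_lt_iff.2 ((map_ne_zero v).2 lF)
          _ = v F.leadingCoeff * v x * π ^ M * π ^ M := by
              rw [two_mul, pow_add]
              ac_rfl
      have pM : 0 < π ^ M := pow_pos hπ0 M
      rw [mul_assoc, mul_assoc (v F.leadingCoeff * v x)] at h5
      exact lt_of_mul_lt_mul_right h5 zero_le
    · show v ((F.eval x / G.eval x) / (y * (H.eval x / K.eval x)) -
        F.leadingCoeff * K.leadingCoeff / (G.leadingCoeff * H.leadingCoeff) * (x / y)) *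
        π ^ (6 * M + 1) ≤ v (x / y) ^ 3
      have hdiff : (F.eval x / G.eval x) / (y * (H.eval x / K.eval x)) -
          F.leadingCoeff * K.leadingCoeff / (G.leadingCoeff * H.leadingCoeff) * (x / y) =
          F.leadingCoeff * K.leadingCoeff / (G.leadingCoeff * H.leadingCoeff) * (x / y) *
            (((eF + eK + eF * eK) - (eG + eH + eG * eH)) / ((1 + eG) * (1 + eH))) := by
        rw [hFG, hHK]
        field_simp
        ring
      have hE : v ((eF + eK + eF * eK) - (eG + eH + eG * eH)) ≤ (v x * π ^ (2 * M))⁻¹ := by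
        have a1 : ∀ e : L, v e * (v x * π ^ (2 * M)) ≤ 1 → v e ≤ (v x * π ^ (2 * M))⁻¹ := by
          intro e he
          rwa [← one_div, le_div_iff₀ hw]
        have a2 : ∀ e e' : L, v e * (v x * π ^ (2 * M)) ≤ 1 → v e' * (v x * π ^ (2 * M)) ≤ 1 →
            v (e + e' + e * e') ≤ (v x * π ^ (2 * M))⁻¹ := by
          intro e e' he he'
          refine v.map_add_le (v.map_add_le (a1 _ he) (a1 _ he')) ?_
          rw [map_mul]
          calc v e * v e' ≤ (v x * π ^ (2 * M))⁻¹ * 1 := by
                gcongr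
                · exact a1 _ he
                · exact (hlt _ he').le
            _ = (v x * π ^ (2 * M))⁻¹ := mul_one _
        exact v.map_sub_le (a2 _ _ heF heK) (a2 _ _ heG heH)
      rw [hdiff, map_mul, map_mul, map_div₀ v ((eF + eK + eF * eK) - (eG + eH + eG * eH)),
        map_mul v (1 + eG), vG, vH, one_mul, div_one]
      have hθ : v (F.leadingCoeff * K.leadingCoeff / (G.leadingCoeff * H.leadingCoeff)) *
          π ^ (4 * M) ≤ 1 := by
        rw [map_div₀, map_mul, map_mul, div_mul_eq_mul_div, div_le_iff₀ (mul_pos pG pH), one_mul]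
        calc v F.leadingCoeff * v K.leadingCoeff * π ^ (4 * M)
            = (v F.leadingCoeff * π ^ M) * (v K.leadingCoeff * π ^ M) * (π ^ M * π ^ M) := by
              rw [show 4 * M = M + M + M + M by ring, pow_add, pow_add, pow_add]
              ac_rfl
          _ ≤ 1 * 1 * (v G.leadingCoeff * v H.leadingCoeff) := by
              gcongr
              · exact bF.2
              · exact bK.2
              · exact bG.1
              · exact bH.1
          _ = v G.leadingCoeff * v H.leadingCoeff := by rw [one_mul, one_mul]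
      have hx2 : (v x * π ^ (2 * M))⁻¹ * π ^ (2 * M) = v (x / y) ^ 2 := by
        rw [mul_inv, mul_assoc, inv_mul_cancel₀ (pow_pos hπ0 _).ne', mul_one]
        exact (eq_inv_of_mul_eq_one_left ht2).symm
      calc v (F.leadingCoeff * K.leadingCoeff / (G.leadingCoeff * H.leadingCoeff)) * v (x / y) *
            v ((eF + eK + eF * eK) - (eG + eH + eG * eH)) * π ^ (6 * M + 1)
          ≤ v (F.leadingCoeff * K.leadingCoeff / (G.leadingCoeff * H.leadingCoeff)) * v (x / y) *
            (v x * π ^ (2 * M))⁻¹ * π ^ (6 * M + 1) := by gcongr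
        _ ≤ v (F.leadingCoeff * K.leadingCoeff / (G.leadingCoeff * H.leadingCoeff)) * v (x / y) *
            (v x * π ^ (2 * M))⁻¹ * π ^ (4 * M + 2 * M) := by
            gcongr 1
            exact pow_le_pow_right_of_le_one' hπ1.le (by omega)
        _ = (v (F.leadingCoeff * K.leadingCoeff / (G.leadingCoeff * H.leadingCoeff)) *
            π ^ (4 * M)) * v (x / y) * ((v x * π ^ (2 * M))⁻¹ * π ^ (2 * M)) := by
            rw [pow_add]
            ac_rfl
        _ ≤ 1 * v (x / y) * ((v x * π ^ (2 * M))⁻¹ * π ^ (2 * M)) := by gcongr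
        _ = v (x / y) ^ 3 := by
            rw [hx2, one_mul, pow_succ' _ 2]

end Pool.Agent.W346.LF
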